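import Pool.Agent.N900.LI.Main

/-!
# `L^γ[0,1]` is a Lipschitz interpolation space between `L^β[0,1]` and `L^α[0,1]`

For all `1 ≤ β < γ < α < ∞`, with the constant `2 (γ / (γ - β) + γ / (α - γ)) ^ (1 / γ)`.

Proof. Let `U` be Lipschitz in `L^β` and in `L^α`. Because `L^α` is dense in `L^β`, and by Fatou's lemma, the
Lipschitz condition of `L^α` extends to increments at all points `y` of `L^β`: if `b ∈ L^α` then
`U (y + b) - U y ∈ L^α` and `‖U (y + b) - U y‖_α ≤ M₁ ‖b‖_α`. If now `x - y = a + b` is the splitting of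
`x - y` at any level into a large part `a` and a small part `b`, then
`U x - U y = (U (y + b + a) - U (y + b)) + (U (y + b) - U y)`, where the norms of the two terms in `L^β` and
`L^α` are at most `M₀ ‖a‖_β` and `M₁ ‖b‖_α`; the argument of Marcinkiewicz finishes the proof.
-/

set_option autoImplicit false

namespace Pool.Agent.Results.MP_6e3e44_an.LipschitzInterpolation

open MeasureTheory
open scoped ENNReal NNReal

/-- Lebesgue measure on `[0, 1]` -/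
noncomputable abbrev leb : Measure ℝ := volume.restrict (Set.Icc 0 1)

/-- `U` is a map of `L^β[0,1]` into itself (complex valued functions), Lipschitz with the constant `M₀`, which
maps `L^α[0,1]` into itself and is there Lipschitz with the constant `M₁`. -/
structure IsLipschitzOperator (β α : ℝ≥0∞) (M₀ M₁ : ℝ≥0) (U : Lp ℂ β leb → Lp ℂ β leb) : Prop where
  lip₀ : ∀ x y : Lp ℂ β leb, eLpNorm (⇑(U x) - ⇑(U y)) β leb ≤ M₀ * eLpNorm (⇑x - ⇑y) β leb
  maps : ∀ x : Lp ℂ β leb, MemLp x α leb → MemLp (U x) α leb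
  lip₁ : ∀ x y : Lp ℂ β leb, MemLp x α leb → MemLp y α leb →
    eLpNorm (⇑(U x) - ⇑(U y)) α leb ≤ M₁ * eLpNorm (⇑x - ⇑y) α leb

/-- `L^γ[0,1]` is a Lipschitz interpolation space with the constant `C` between `L^β[0,1]` and `L^α[0,1]`. -/
def IsLipschitzInterpolation (β γ α : ℝ≥0∞) (C : ℝ≥0) : Prop :=
  ∀ (M₀ M₁ : ℝ≥0) (U : Lp ℂ β leb → Lp ℂ β leb), IsLipschitzOperator β α M₀ M₁ U →
    (∀ x : Lp ℂ β leb, MemLp x γ leb → MemLp (U x) γ leb) ∧
    ∀ x y : Lp ℂ β leb, MemLp x γ leb → MemLp y γ leb →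
      eLpNorm (⇑(U x) - ⇑(U y)) γ leb ≤ C * max M₀ M₁ * eLpNorm (⇑x - ⇑y) γ leb

/-- For all `1 ≤ β < γ < α < ∞`, `L^γ[0,1]` is a Lipschitz interpolation space between `L^β[0,1]` and
`L^α[0,1]`, with a positive constant, namely `2 (γ / (γ - β) + γ / (α - γ)) ^ (1 / γ)`. -/
theorem result (β γ α : ℝ) (hβ : 1 ≤ β) (hβγ : β < γ) (hγα : γ < α) :
    ∃ C : ℝ≥0, 0 < C ∧ (C : ℝ) = 2 * (γ / (γ - β) + γ / (α - γ)) ^ (1 / γ) ∧
      IsLipschitzInterpolation (ENNReal.ofReal β) (ENNReal.ofReal γ) (ENNReal.ofReal α) C := by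
  have h1 : 0 < γ - β := by linarith
  have h2 : 0 < α - γ := by linarith
  have hγ : 0 < γ := by linarith
  have hα : 0 < α := by linarith
  have hC : 0 < 2 * (γ / (γ - β) + γ / (α - γ)) ^ (1 / γ) := by positivity
  obtain ⟨C, hCdef⟩ : ∃ C : ℝ≥0, C = Real.toNNReal (2 * (γ / (γ - β) + γ / (α - γ)) ^ (1 / γ)) := ⟨_, rfl⟩
  refine ⟨C, ?_, ?_, fun M₀ M₁ U hU => ?_⟩
  · rw [hCdef]; exact Real.toNNReal_pos.2 hC
  · rw [hCdef]; exact Real.coe_toNNReal _ hC.le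
  have hU' : N900.LI.LipOp leb (ENNReal.ofReal β) (ENNReal.ofReal α) M₀ M₁ U := ⟨hU.lip₀, hU.maps, hU.lip₁⟩
  have b1 : (1 : ℝ≥0∞) ≤ ENNReal.ofReal β := by rw [ENNReal.one_le_ofReal]; exact hβ
  have b2 : ENNReal.ofReal β < ENNReal.ofReal γ := (ENNReal.ofReal_lt_ofReal_iff hγ).2 hβγ
  have b3 : ENNReal.ofReal γ < ENNReal.ofReal α := (ENNReal.ofReal_lt_ofReal_iff hα).2 hγα
  have key : ∀ x y : Lp ℂ (ENNReal.ofReal β) leb, eLpNorm (⇑(U x) - ⇑(U y)) (ENNReal.ofReal γ) leb ≤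
      C * max M₀ M₁ * eLpNorm (⇑x - ⇑y) (ENNReal.ofReal γ) leb := by
    intro x y
    refine (N900.LI.main b1 b2 b3 ENNReal.ofReal_ne_top hU' x y).trans (le_of_eq ?_)
    congr 2
    rw [ENNReal.toReal_ofReal (by linarith), ENNReal.toReal_ofReal hγ.le, ENNReal.toReal_ofReal hα.le]
    rw [hCdef]
    rfl
  refine ⟨fun x hx => ?_, fun x y _ _ => key x y⟩
  -- `U x = (U x - U 0) + U 0`
  have h0 : MemLp (⇑(0 : Lp ℂ (ENNReal.ofReal β) leb)) (ENNReal.ofReal α) leb :=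
    (memLp_congr_ae (Lp.coeFn_zero _ _ _)).2 (MemLp.zero' (p := ENNReal.ofReal α) (μ := leb))
  have h3 : MemLp (U 0) (ENNReal.ofReal γ) leb := (hU.maps 0 h0).mono_exponent b3.le
  have h4 : MemLp (⇑(U x) - ⇑(U 0)) (ENNReal.ofReal γ) leb := by
    refine ⟨(Lp.aestronglyMeasurable _).sub (Lp.aestronglyMeasurable _), ?_⟩
    refine (key x 0).trans_lt ?_
    have h5 : MemLp (⇑x - ⇑(0 : Lp ℂ (ENNReal.ofReal β) leb)) (ENNReal.ofReal γ) leb :=
      hx.sub (h0.mono_exponent b3.le)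
    exact ENNReal.mul_lt_top (ENNReal.mul_lt_top ENNReal.coe_lt_top ENNReal.coe_lt_top) h5.2
  have h6 := h4.add h3
  rwa [sub_add_cancel] at h6

end Pool.Agent.Results.MP_6e3e44_an.LipschitzInterpolation
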